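import Pool.Agent.helper18.EC.W1
import Pool.Agent.helper28.EC.W2
import Pool.Agent.helper15.EC.C4
import Pool.Agent.helper50.EC.SA
import Pool.Agent.helper94.EC.LN
import Pool.Agent.helper3.EC.TR
import Pool.Agent.helper58.EC.DI
import Pool.Agent.helper63.EC.CF
import Pool.Agent.helper54.EC.TB
import Pool.Agent.helper61.EC.S3
import Pool.Agent.helper95.EC.ST
import Pool.Agent.helper29.EC.FI

/-!
# Chordal graphs isomorphic to their own i-graph

A finite connected chordal graph in which no vertex lies on two different edges that are in no triangle
is isomorphic to its i-graph only if it is complete.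
-/

set_option autoImplicit false

namespace Pool.Agent.Results.MP_ee5996_co.ChordalGraphs

open Pool.Agent.helper4.EC

theorem result {V : Type*} [Fintype V] [DecidableEq V] (G : SimpleGraph V) (hconn : G.Connected)
    (hch : Chordal G) (hsb : SpreadBridges G) (hiso : Nonempty (iGraph G ≃g G)) : G = ⊤ := by
  have w1 := W1
  have c4 := C4 w1
  have sa := SA
  have tr := TR sa
  exact FI (W2 w1) (DI sa LN tr) (ST sa (S3 sa (TB sa c4 LN tr (CF sa c4)))) V G hconn hch hsb hiso

end Pool.Agent.Results.MP_ee5996_co.ChordalGraphs
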