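import Pool.Agent.helper91.SI.All5

/-!
MP_ee5996_co : the finite graphs without cycles of length 3 and 4 which are isomorphic to their
own i-graph.
-/

set_option autoImplicit false

namespace Pool.Agent.Results.MP_ee5996_co.GirthFive

open Pool.Agent.helper20.IG

/-- Let G be a finite graph, connected or not, without cycles of length 3 and 4.  Then G is
isomorphic to its i-graph if and only if G is the complete graph on 1 or 2 vertices, the cycle of
length 7, or a cycle of length k with k = 2 mod 3. -/
theorem result (V : Type) [Fintype V] [DecidableEq V] (G : SimpleGraph V)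
    (h : ∀ (v : V) (p : G.Walk v v), p.IsCycle → p.length ≠ 3 ∧ p.length ≠ 4) :
    Nonempty (iGraph G ≃g G) ↔
      Nonempty (G ≃g (⊤ : SimpleGraph (Fin 1))) ∨ Nonempty (G ≃g (⊤ : SimpleGraph (Fin 2))) ∨
        Nonempty (G ≃g SimpleGraph.cycleGraph 7) ∨
        ∃ k, 5 ≤ k ∧ k % 3 = 2 ∧ Nonempty (G ≃g SimpleGraph.cycleGraph k) :=
  ⟨Pool.Agent.helper91.SI.All_FI5 V G h,
    Pool.Agent.helper91.SI.CV3 Pool.Agent.helper91.SI.TRF Pool.Agent.helper91.SI.CNV V G⟩

end Pool.Agent.Results.MP_ee5996_co.GirthFive
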