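import Pool.Agent.helper20.IG.Base

/-!
MP_ee5996_co : four connected graphs isomorphic to their own i-graph which are neither complete
nor cycles of length 2 modulo 3.
-/

namespace Pool.Agent.Results.MP_ee5996_co.NewSelfIGraphs

open Pool.Agent.helper20.IG

/-- A graph on 10 vertices with 13 edges. -/
def gA : SimpleGraph (Fin 10) :=
  ofEdges 10 [(0, 1), (0, 2), (0, 3), (1, 4), (1, 6), (1, 7), (2, 5), (2, 7), (3, 6), (4, 7),
    (4, 8), (6, 8), (8, 9)]

/-- A graph on 10 vertices with 15 edges. -/
def gB : SimpleGraph (Fin 10) :=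
  ofEdges 10 [(0, 1), (0, 2), (0, 3), (1, 4), (1, 7), (1, 9), (2, 5), (2, 7), (2, 8), (3, 6),
    (3, 8), (3, 9), (4, 7), (5, 8), (6, 9)]

/-- A graph on 12 vertices with 16 edges: the cube with a pendant vertex at one vertex and at
its three neighbours. -/
def gN : SimpleGraph (Fin 12) :=
  ofEdges 12 [(0, 1), (0, 2), (0, 3), (0, 4), (1, 5), (1, 7), (1, 9), (2, 6), (2, 7), (2, 10),
    (3, 8), (3, 9), (3, 10), (7, 11), (9, 11), (10, 11)]

/-- G is connected and isomorphic to its i-graph, but G is neither complete nor a cycle of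
length 2 modulo 3. -/
def Sporadic {n : ℕ} (G : SimpleGraph (Fin n)) : Prop :=
  G.Connected ∧ Nonempty (iGraph G ≃g G) ∧ G ≠ ⊤ ∧
    ∀ k : ℕ, k % 3 = 2 → IsEmpty (G ≃g SimpleGraph.cycleGraph k)

instance : DecidableRel gA.Adj := fun i j => by unfold gA; infer_instance
instance : DecidableRel gB.Adj := fun i j => by unfold gB; infer_instance
instance : DecidableRel gN.Adj := fun i j => by unfold gN; infer_instance

theorem no_cycle {n : ℕ} (hn : n % 3 ≠ 2) (G : SimpleGraph (Fin n)) :
    ∀ k : ℕ, k % 3 = 2 → IsEmpty (G ≃g SimpleGraph.cycleGraph k) := by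
  intro k hk
  refine ⟨fun e => ?_⟩
  have := Fintype.card_congr e.toEquiv
  simp only [Fintype.card_fin] at this
  omega

theorem spC : Sporadic (SimpleGraph.cycleGraph 7) := by
  refine ⟨connected_of_parent (by norm_num) _ (by decide), ?_, ?_, no_cycle (by norm_num) _⟩
  · exact iso_of_test (l := [66, 5, 10, 20, 40, 80, 33]) (L := [21, 37, 41, 42, 74, 82, 84]) 3
      (by decide +kernel) (by decide) (by decide +kernel) (by decide +kernel) (by decide +kernel)
      (by decide +kernel)
  · intro h
    have : (SimpleGraph.cycleGraph 7).Adj 0 2 := by rw [h]; decide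
    revert this
    decide

theorem spA : Sporadic gA := by
  refine ⟨connected_of_parent (by norm_num) _ (by decide +kernel), ?_, ?_,
    no_cycle (by norm_num) _⟩
  · exact iso_of_test (l := [14, 209, 161, 65, 386, 4, 266, 22, 592, 256])
      (L := [526, 554, 540, 270, 680, 596, 298, 568, 424, 417]) 4
      (by decide +kernel) (by decide) (by decide +kernel) (by decide +kernel) (by decide +kernel)
      (by decide +kernel)
  · intro h
    have : gA.Adj 0 9 := by rw [h]; decide
    revert this
    decide +kernel

theorem spB : Sporadic gB := by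
  refine ⟨connected_of_parent (by norm_num) _ (by decide +kernel), ?_, ?_,
    no_cycle (by norm_num) _⟩
  · exact iso_of_test (l := [14, 657, 417, 833, 130, 260, 520, 22, 44, 74])
      (L := [14, 70, 42, 28, 322, 168, 532, 98, 56, 84]) 3
      (by decide +kernel) (by decide) (by decide +kernel) (by decide +kernel) (by decide +kernel)
      (by decide +kernel)
  · intro h
    have : gB.Adj 0 9 := by rw [h]; decide
    revert this
    decide +kernel

theorem spN : Sporadic gN := by
  refine ⟨connected_of_parent (by norm_num) _ (by decide +kernel), ?_, ?_,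
    no_cycle (by norm_num) _⟩
  · exact iso_of_test (l := [30, 673, 1217, 1793, 1, 2, 4, 2054, 8, 2058, 2060, 1664])
      (L := [2416, 2386, 2356, 2168, 2401, 1362, 820, 2326, 248, 2138, 2108, 2078]) 5
      (by decide +kernel) (by decide) (by decide +kernel) (by decide +kernel) (by decide +kernel)
      (by decide +kernel)
  · intro h
    have : gN.Adj 0 11 := by rw [h]; decide
    revert this
    decide +kernel

theorem not_iso : IsEmpty (gA ≃g gB) := by
  refine ⟨fun e => ?_⟩
  have h1 : gA.edgeFinset.card = gB.edgeFinset.card := e.card_edgeFinset_eq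
  have h2 : gA.edgeFinset.card = 13 := by decide +kernel
  have h3 : gB.edgeFinset.card = 15 := by decide +kernel
  omega

/-- Four connected graphs with I(G) isomorphic to G, outside the two known families. -/
theorem result : Sporadic (SimpleGraph.cycleGraph 7) ∧ Sporadic gA ∧ Sporadic gB ∧ Sporadic gN ∧
    IsEmpty (gA ≃g gB) :=
  ⟨spC, spA, spB, spN, not_iso⟩

end Pool.Agent.Results.MP_ee5996_co.NewSelfIGraphs
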