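import Pool.Agent.helper4.EE.Core
import Pool.Agent.helper4.EE.Five

/-!
# Graphs isomorphic to their own i-graph, independent domination number at most two

If a finite graph `G` with independent domination number at most 2 is isomorphic to its i-graph, then
`G` is a complete graph or the 5-cycle.
-/

set_option autoImplicit false

namespace Pool.Agent.Results.MP_ee5996_co.SmallIndepDom

open Finset Pool.Agent.helper4.EE

/-- `S` is an independent dominating set of `G`. -/
def IsIndepDom {V : Type*} (G : SimpleGraph V) (S : Finset V) : Prop :=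
  (∀ u ∈ S, ∀ v ∈ S, ¬ G.Adj u v) ∧ ∀ v, v ∉ S → ∃ u ∈ S, G.Adj u v

/-- `S` is an i-set of `G`: an independent dominating set of the smallest size. -/
def IsISet {V : Type*} (G : SimpleGraph V) (S : Finset V) : Prop :=
  IsIndepDom G S ∧ ∀ T, IsIndepDom G T → S.card ≤ T.card

/-- The i-graph of `G`: the vertices are the i-sets; `X` and `Y` are adjacent if they are distinct and
`Y = (X \ {u}) ∪ {v}` for some `u` in `X` and `v` in `Y` with `u v` an edge of `G`. -/
def iGraph {V : Type*} [DecidableEq V] (G : SimpleGraph V) :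
    SimpleGraph {S : Finset V // IsISet G S} where
  Adj X Y := X ≠ Y ∧ ∃ u ∈ X.1, ∃ v ∈ Y.1, G.Adj u v ∧ Y.1 = insert v (X.1.erase u)
  symm := ⟨by
    rintro X Y ⟨hne, u, hu, v, hv, huv, hY⟩
    refine ⟨hne.symm, v, hv, u, hu, huv.symm, ?_⟩
    have hvX : v ∉ X.1 := fun h => X.2.1.1 u hu v h huv
    have hvu : v ≠ u := fun h => by subst h; exact G.loopless.irrefl _ huv
    rw [hY, Finset.erase_insert, Finset.insert_erase hu]
    simp [hvX]⟩
  loopless := ⟨fun X h => h.1 rfl⟩

section

variable {V : Type*} [Fintype V] [DecidableEq V] {G : SimpleGraph V} (φ : iGraph G ≃g G)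

/-- the i-set of the vertex `u` -/
def FF (u : V) : Finset V := (φ.symm u).1

omit [Fintype V] in
theorem FF_iset (u : V) : IsISet G (FF φ u) := (φ.symm u).2

omit [Fintype V] in
theorem FF_inj : Function.Injective (FF φ) := by
  intro u v h
  exact φ.symm.injective (Subtype.ext h)

omit [Fintype V] in
theorem FF_surj {S : Finset V} (hS : IsISet G S) : ∃ u, FF φ u = S := by
  refine ⟨φ ⟨S, hS⟩, ?_⟩
  unfold FF
  rw [RelIso.symm_apply_apply]

omit [Fintype V] in
theorem FF_card (u : V) {T : Finset V} (hT : IsISet G T) : (FF φ u).card = T.card :=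
  le_antisymm ((FF_iset φ u).2 T hT.1) (hT.2 _ (FF_iset φ u).1)

omit [Fintype V] in
theorem adj_iff (u v : V) : G.Adj u v ↔ FF φ u ≠ FF φ v ∧ ∃ a ∈ FF φ u, ∃ b ∈ FF φ v,
    G.Adj a b ∧ FF φ v = insert b ((FF φ u).erase a) := by
  rw [← φ.symm.map_adj_iff]
  constructor
  · rintro ⟨h1, h2⟩
    exact ⟨fun h => h1 (Subtype.ext h), h2⟩
  · rintro ⟨h1, h2⟩
    exact ⟨fun h => h1 (congrArg Subtype.val h), h2⟩

omit [Fintype V] in
/-- two i-sets with two elements: adjacent vertices correspond to intersecting i-sets -/
theorem adj_two (h2 : ∀ u, (FF φ u).card = 2) {u v : V} (huv : u ≠ v) :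
    G.Adj u v ↔ ¬ Disjoint (FF φ u) (FF φ v) := by
  rw [adj_iff φ u v, Finset.not_disjoint_iff]
  constructor
  · rintro ⟨_, a, ha, b, _, _, hF⟩
    have h1 : 1 < (FF φ u).card := by rw [h2]; norm_num
    obtain ⟨z, hz, hza⟩ := Finset.exists_mem_ne h1 a
    refine ⟨z, hz, ?_⟩
    rw [hF]
    exact mem_insert_of_mem (mem_erase.2 ⟨hza, hz⟩)
  · rintro ⟨z, hz1, hz2⟩
    have hne : FF φ u ≠ FF φ v := fun h => huv (FF_inj φ h)
    have hc1 : 1 < (FF φ u).card := by rw [h2]; norm_num
    have hc2 : 1 < (FF φ v).card := by rw [h2]; norm_num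
    obtain ⟨a, ha, haz⟩ := Finset.exists_mem_ne hc1 z
    obtain ⟨b, hb, hbz⟩ := Finset.exists_mem_ne hc2 z
    have e1 : ({z, a} : Finset V) = FF φ u := by
      apply Finset.eq_of_subset_of_card_le
      · intro y hy
        simp only [mem_insert, mem_singleton] at hy
        rcases hy with rfl | rfl <;> assumption
      · rw [h2, Finset.card_pair haz.symm]
    have e2 : ({z, b} : Finset V) = FF φ v := by
      apply Finset.eq_of_subset_of_card_le
      · intro y hy
        simp only [mem_insert, mem_singleton] at hy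
        rcases hy with rfl | rfl <;> assumption
      · rw [h2, Finset.card_pair hbz.symm]
    have hab : a ≠ b := by
      rintro rfl
      exact hne (e1.symm.trans e2)
    refine ⟨hne, a, ha, b, hb, ?_, ?_⟩
    · have hbu : b ∉ FF φ u := by
        rw [← e1]
        simp only [mem_insert, mem_singleton, not_or]
        exact ⟨hbz, hab.symm⟩
      obtain ⟨y, hy, hyb⟩ := (FF_iset φ u).1.2 b hbu
      rw [← e1] at hy
      simp only [mem_insert, mem_singleton] at hy
      rcases hy with rfl | rfl
      · exact absurd hyb ((FF_iset φ v).1.1 y hz2 b hb)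
      · exact hyb
    · rw [← e1, ← e2]
      ext y
      simp only [mem_insert, mem_singleton, mem_erase]
      constructor
      · rintro (rfl | rfl)
        · exact Or.inr ⟨haz.symm, Or.inl rfl⟩
        · exact Or.inl rfl
      · rintro (rfl | ⟨h3, rfl | rfl⟩)
        · exact Or.inr rfl
        · exact Or.inl rfl
        · exact absurd rfl h3

/-- the combinatorial structure -/
theorem sys (h2 : ∀ u, (FF φ u).card = 2) :
    Sys (FF φ) (fun a b => a ≠ b ∧ ∃ u, FF φ u = {a, b}) where
  card2 := h2
  inj := FF_inj φ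
  edge := fun _ _ => Iff.rfl
  adj := by
    intro u v
    constructor
    · rintro ⟨huv, w0, hw0⟩
      have hI : IsISet G {u, v} := hw0 ▸ FF_iset φ w0
      have hnadj : ¬ G.Adj u v := hI.1.1 u (by simp) v (by simp)
      rw [adj_two φ h2 huv, not_not] at hnadj
      refine ⟨hnadj, fun w => ?_⟩
      rw [Finset.disjoint_union_right, not_and_or]
      have hself : ∀ z, ¬ Disjoint (FF φ z) (FF φ z) := by
        intro z hz
        rw [disjoint_self, Finset.bot_eq_empty] at hz
        have := h2 z
        rw [hz] at this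
        simp at this
      by_cases hwu : w = u
      · rw [hwu]
        exact Or.inl (hself u)
      by_cases hwv : w = v
      · rw [hwv]
        exact Or.inr (hself v)
      obtain ⟨y, hy, hyw⟩ := hI.1.2 w (by simp [hwu, hwv])
      simp only [mem_insert, mem_singleton] at hy
      rcases hy with rfl | rfl
      · exact Or.inl ((adj_two φ h2 hwu).1 hyw.symm)
      · exact Or.inr ((adj_two φ h2 hwv).1 hyw.symm)
    · rintro ⟨hd, hw⟩
      have huv : u ≠ v := by
        rintro rfl
        rw [disjoint_self, Finset.bot_eq_empty] at hd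
        have := h2 u
        rw [hd] at this
        simp at this
      have hn : ¬ G.Adj u v := fun h => (adj_two φ h2 huv).1 h hd
      have hI : IsISet G {u, v} := by
        refine ⟨⟨?_, ?_⟩, ?_⟩
        · intro a ha b hb hab
          simp only [mem_insert, mem_singleton] at ha hb
          rcases ha with rfl | rfl <;> rcases hb with rfl | rfl
          · exact G.loopless.irrefl _ hab
          · exact hn hab
          · exact hn hab.symm
          · exact G.loopless.irrefl _ hab
        · intro w hwm
          simp only [mem_insert, mem_singleton, not_or] at hwm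
          have h3 := hw w
          rw [Finset.disjoint_union_right, not_and_or] at h3
          rcases h3 with h3 | h3
          · exact ⟨u, by simp, ((adj_two φ h2 hwm.1).2 h3).symm⟩
          · exact ⟨v, by simp, ((adj_two φ h2 hwm.2).2 h3).symm⟩
        · intro T hT
          rw [Finset.card_pair huv, ← h2 u]
          exact (FF_iset φ u).2 T hT
      exact ⟨huv, FF_surj φ hI⟩
  tri := by
    rintro a b c ⟨hab, u, hu⟩ ⟨hbc, v, hv⟩ ⟨hac, w, hw⟩
    have h1 : IsISet G {a, b} := hu ▸ FF_iset φ u
    have h3 : IsISet G {b, c} := hv ▸ FF_iset φ v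
    have h4 : IsISet G {a, c} := hw ▸ FF_iset φ w
    obtain ⟨y, hy, hyc⟩ := h1.1.2 c (by simp [hac.symm, hbc.symm])
    simp only [mem_insert, mem_singleton] at hy
    rcases hy with rfl | rfl
    · exact h4.1.1 y (by simp) c (by simp) hyc
    · exact h3.1.1 y (by simp) c (by simp) hyc

end

/-- A finite graph with independent domination number at most 2 which is isomorphic to its i-graph is
complete or the 5-cycle. -/
theorem result {V : Type*} [Fintype V] [DecidableEq V] (G : SimpleGraph V)
    (h2 : ∃ S : Finset V, IsIndepDom G S ∧ S.card ≤ 2) (hG : Nonempty (iGraph G ≃g G)) :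
    G = ⊤ ∨ Nonempty (G ≃g SimpleGraph.cycleGraph 5) := by
  obtain ⟨φ⟩ := hG
  obtain ⟨S, hS, hSc⟩ := h2
  have hle : ∀ u, (FF φ u).card ≤ 2 := fun u => ((FF_iset φ u).2 S hS).trans hSc
  rcases isEmpty_or_nonempty V with hV | ⟨⟨u0⟩⟩
  · left
    ext a
    exact hV.elim a
  have hcard : ∀ u, (FF φ u).card = (FF φ u0).card := fun u => FF_card φ u (FF_iset φ u0)
  have h0 : (FF φ u0).card ≠ 0 := by
    intro h
    rw [Finset.card_eq_zero] at h
    have h1 := (FF_iset φ u0).1.2 u0 (by rw [h]; simp)
    rw [h] at h1
    obtain ⟨y, hy, _⟩ := h1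
    simp at hy
  have h12 : (FF φ u0).card = 1 ∨ (FF φ u0).card = 2 := by
    have := hle u0
    omega
  rcases h12 with h1 | h1
  · left
    ext u v
    rw [SimpleGraph.top_adj]
    constructor
    · intro h
      exact h.ne
    · intro huv
      rw [adj_iff φ u v]
      obtain ⟨a, ha⟩ := Finset.card_eq_one.1 ((hcard u).trans h1)
      obtain ⟨b, hb⟩ := Finset.card_eq_one.1 ((hcard v).trans h1)
      have hne : FF φ u ≠ FF φ v := fun h => huv (FF_inj φ h)
      have hab : a ≠ b := by
        rintro rfl
        exact hne (ha.trans hb.symm)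
      refine ⟨hne, a, by rw [ha]; simp, b, by rw [hb]; simp, ?_, ?_⟩
      · obtain ⟨y, hy, hyb⟩ := (FF_iset φ u).1.2 b (by rw [ha]; simp [hab.symm])
        rw [ha, mem_singleton] at hy
        rw [← hy]
        exact hyb
      · rw [ha, hb]
        simp
  · right
    have hc2 : ∀ u, (FF φ u).card = 2 := fun u => (hcard u).trans h1
    have hS := sys φ hc2
    refine five G (hS.card_five u0) fun u => ⟨(Sys.I (FF φ) u).erase u, ?_, ?_⟩
    · have hself : u ∈ Sys.I (FF φ) u := by
        rw [Sys.mem_I, disjoint_self, Finset.bot_eq_empty]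
        intro h
        have := hc2 u
        rw [h] at this
        simp at this
      rw [Finset.card_erase_of_mem hself, hS.card_I]
    · intro v
      rw [mem_erase, Sys.mem_I]
      constructor
      · rintro ⟨h3, h4⟩
        exact ((adj_two φ hc2 h3).2 h4).symm
      · intro h
        exact ⟨h.ne', (adj_two φ hc2 h.ne').1 h.symm⟩

end Pool.Agent.Results.MP_ee5996_co.SmallIndepDom
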